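import Pool.Agent.Run7.h168.Near.One

/-!
# Near relations: intervals of heights, gaps, and a criterion
-/

set_option autoImplicit false

namespace Pool.Agent.Run7.h168.Near

open Finset Pool.Agent.R356 Pool.Agent.N743.SS

variable {n : ℕ}

lemma Small.mono {D : ℕ} {H H' : ℝ} {R : MvPolynomial (Fin (n + 1)) ℤ} (h : Small D H R) (hH : H ≤ H') : Small D H' R :=
  ⟨h.1, h.2.1, fun s => (h.2.2 s).trans hH⟩

lemma norm_val_assoc (t : ℂ) (x : Fin n → ℝ) {F G : MvPolynomial (Fin (n + 1)) ℤ} (h : Associated F G) :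
    ‖val t x F‖ ≤ ‖val t x G‖ := by
  obtain ⟨u, hu⟩ := h
  rw [← hu, val_mul, norm_mul]
  refine le_mul_of_one_le_right (norm_nonneg _) ?_
  refine norm_val_const t x _ u.ne_zero ?_
  exact (MvPolynomial.isUnit_iff_totalDegree_of_isReduced.1 u.isUnit).2

/-- the local statement at all heights of an interval -/
def Loc (x : Fin n → ℝ) (D : ℕ) (κ K T C : ℝ) : Prop :=
  ∀ t : ℂ, ‖t‖ ≤ T → ∀ H₁ : ℝ, 1 ≤ H₁ → ∃ F : MvPolynomial (Fin (n + 1)) ℤ, Irreducible F ∧ 0 < F.degreeOf 0 ∧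
    Small D (K * H₁) F ∧ ∀ H₂ : ℝ,
      (∀ H, H₁ ≤ H → H < H₂ → ∃ R, Small D H R ∧ ‖val t x R‖ < C⁻¹ * (2 * H) ^ (-κ)) →
        ∀ H, H₁ ≤ H → H ≤ H₂ → ∀ R, Small D H R →
          C⁻¹ * H ^ (-κ) ≤ ‖val t x R‖ ∨ (F ∣ R ∧ ‖val t x F‖ ^ D ≤ ‖val t x R‖)

/-- **Intervals of heights.** -/
theorem intervals (x : Fin n → ℝ) (hx : MeasM x) (D : ℕ) (hD : 1 ≤ D) : ∃ κ K : ℝ, 0 < κ ∧ 1 ≤ K ∧
    ∀ T : ℝ, 1 ≤ T → ∃ C : ℝ, 1 ≤ C ∧ Loc x D κ K T C := by
  obtain ⟨κ, K, hκ, hK, h⟩ := local_structure x hx D hD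
  refine ⟨κ, K, hκ, hK, fun T hT => ?_⟩
  obtain ⟨C, hC, h⟩ := h T hT
  refine ⟨C, hC, fun t ht => ?_⟩
  have hC0 : 0 < C := by linarith
  obtain ⟨Fs, hFs⟩ : ∃ Fs : ℝ → MvPolynomial (Fin (n + 1)) ℤ, ∀ H : ℝ, 1 ≤ H → Irreducible (Fs H) ∧
      0 < (Fs H).degreeOf 0 ∧ Small D (K * H) (Fs H) ∧
      (∀ R, Small D H R → C⁻¹ * H ^ (-κ) ≤ ‖val t x R‖ ∨ (Fs H ∣ R ∧ ‖val t x (Fs H)‖ ^ D ≤ ‖val t x R‖)) ∧
      (∀ G, Irreducible G → 0 < G.degreeOf 0 → Small D (K * H) G → ‖val t x G‖ ^ D < C⁻¹ * H ^ (-κ) → Fs H ∣ G) := by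
    classical
    refine ⟨fun H => if hH : 1 ≤ H then (h t ht H hH).choose else 0, fun H hH => ?_⟩
    simp only [dif_pos hH]
    exact (h t ht H hH).choose_spec
  intro H₁ hH₁
  refine ⟨Fs H₁, (hFs H₁ hH₁).1, (hFs H₁ hH₁).2.1, (hFs H₁ hH₁).2.2.1, fun H₂ hnear => ?_⟩
  -- one step
  have hstep : ∀ H H' : ℝ, H₁ ≤ H → H ≤ H' → H' ≤ 2 * H → H' ≤ H₂ → Associated (Fs H) (Fs H') := by
    intro H H' h1 h2 h3 h4
    rcases h2.eq_or_lt with h0 | h0
    · rw [h0]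
    obtain ⟨R, hR, hRv⟩ := hnear H h1 (h0.trans_le h4)
    have hH1 : 1 ≤ H := hH₁.trans h1
    have hH0 : 0 < H := by linarith
    have e1 : C⁻¹ * (2 * H) ^ (-κ) ≤ C⁻¹ * H' ^ (-κ) := by
      refine mul_le_mul_of_nonneg_left ?_ (by positivity)
      exact Real.rpow_le_rpow_of_nonpos (by linarith) h3 (by linarith)
    have e2 : C⁻¹ * H' ^ (-κ) ≤ C⁻¹ * H ^ (-κ) := by
      refine mul_le_mul_of_nonneg_left ?_ (by positivity)
      exact Real.rpow_le_rpow_of_nonpos hH0 h2 (by linarith)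
    obtain ⟨a1, a2, a3, a4, a5⟩ := hFs H hH1
    obtain ⟨b1, b2, b3, b4, b5⟩ := hFs H' (hH1.trans h2)
    rcases a4 R hR with h5 | ⟨h5, h6⟩
    · linarith
    · have h7 := b5 (Fs H) a1 a2 (a3.mono (mul_le_mul_of_nonneg_left h2 (by linarith))) (by linarith)
      exact (b1.associated_of_dvd a1 h7).symm
  have hall : ∀ k : ℕ, ∀ H, H₁ ≤ H → H ≤ H₂ → H ≤ 2 ^ k * H₁ → Associated (Fs H₁) (Fs H) := by
    intro k
    induction k with
    | zero =>
      intro H h1 h2 h3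
      have : H = H₁ := le_antisymm (by simpa using h3) h1
      rw [this]
    | succ k ih =>
      intro H h1 h2 h3
      rcases le_total H (2 * H₁) with h4 | h4
      · exact hstep H₁ H le_rfl h1 h4 h2
      · have h5 := ih (H / 2) (by linarith) (by linarith) (by rw [pow_succ] at h3; linarith)
        exact h5.trans (hstep (H / 2) H (by linarith) (by linarith) (by linarith) h2)
  intro H h1 h2 R hR
  obtain ⟨k, hk⟩ := pow_unbounded_of_one_lt H (show (1 : ℝ) < 2 by norm_num)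
  have h3 := hall k H h1 h2 (hk.le.trans (le_mul_of_one_le_right (by positivity) hH₁))
  rcases (hFs H (hH₁.trans h1)).2.2.2.1 R hR with h4 | ⟨h4, h5⟩
  · exact Or.inl h4
  · refine Or.inr ⟨h3.dvd.trans h4, le_trans ?_ h5⟩
    exact pow_le_pow_left₀ (norm_nonneg _) (norm_val_assoc t x h3) D

/-- the statement at one height -/
lemma Loc.one {x : Fin n → ℝ} {D : ℕ} {κ K T C : ℝ} (h : Loc x D κ K T C) (t : ℂ) (ht : ‖t‖ ≤ T) (H : ℝ) (hH : 1 ≤ H) :
    ∃ F : MvPolynomial (Fin (n + 1)) ℤ, Irreducible F ∧ 0 < F.degreeOf 0 ∧ Small D (K * H) F ∧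
      ∀ R, Small D H R → C⁻¹ * H ^ (-κ) ≤ ‖val t x R‖ ∨ (F ∣ R ∧ ‖val t x F‖ ^ D ≤ ‖val t x R‖) := by
  obtain ⟨F, h1, h2, h3, h4⟩ := h t ht H hH
  exact ⟨F, h1, h2, h3, h4 H (fun H' h5 h6 => absurd h5 (not_le.2 h6)) H le_rfl le_rfl⟩

/-- **A criterion.** -/
theorem criterion (x : Fin n → ℝ) (D : ℕ) (hD : 1 ≤ D) (κ K : ℝ) (hκ : 0 < κ)
    (h : ∀ T : ℝ, 1 ≤ T → ∃ C : ℝ, 1 ≤ C ∧ Loc x D κ K T C) (w : ℝ) (hw : κ < w) (t : ℂ) :
    (∃ R : MvPolynomial (Fin (n + 1)) ℤ, R ≠ 0 ∧ R.totalDegree ≤ D ∧ val t x R = 0) ↔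
      ∃ H₀ : ℝ, ∀ H, H₀ ≤ H → ∃ R, Small D H R ∧ ‖val t x R‖ ≤ H ^ (-w) := by
  constructor
  · rintro ⟨R, hR0, hRD, hRv⟩
    refine ⟨∑ s ∈ R.support, |((R.coeff s : ℤ) : ℝ)|, fun H hH => ⟨R, ⟨hR0, hRD, fun s => le_trans ?_ hH⟩, ?_⟩⟩
    · by_cases hs : s ∈ R.support
      · exact Finset.single_le_sum (f := fun s => |((R.coeff s : ℤ) : ℝ)|) (fun _ _ => abs_nonneg _) hs
      · rw [MvPolynomial.notMem_support_iff.1 hs, Int.cast_zero, abs_zero]
        exact Finset.sum_nonneg fun _ _ => abs_nonneg _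
    · rw [hRv, norm_zero]
      have h1 : 0 ≤ H := le_trans (Finset.sum_nonneg fun _ _ => abs_nonneg _) hH
      positivity
  · rintro ⟨H₀, hnear⟩
    obtain ⟨C, hC, h⟩ := h (max 1 ‖t‖) (le_max_left _ _)
    have hC0 : 0 < C := by linarith
    have h2 := h t (le_max_right _ _)
    obtain ⟨η, hη⟩ : ∃ η : ℝ, η = w - κ := ⟨_, rfl⟩
    have hη0 : 0 < η := by linarith
    obtain ⟨H₁, hH₁⟩ : ∃ H₁ : ℝ, H₁ = max (max 1 H₀) ((C * 2 ^ κ + 1) ^ (1 / η)) := ⟨_, rfl⟩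
    have hH₁1 : 1 ≤ H₁ := by rw [hH₁]; exact (le_max_left _ _).trans (le_max_left _ _)
    have hH₁0 : H₀ ≤ H₁ := by rw [hH₁]; exact (le_max_right _ _).trans (le_max_left _ _)
    have hH₁C : ∀ H, H₁ ≤ H → C * 2 ^ κ < H ^ η := by
      intro H hH
      have h1 : (C * 2 ^ κ + 1) ^ (1 / η) ≤ H := (by rw [hH₁]; exact le_max_right _ _ : _ ≤ H₁).trans hH
      have h3 : ((C * 2 ^ κ + 1) ^ (1 / η)) ^ η ≤ H ^ η := Real.rpow_le_rpow (by positivity) h1 hη0.le
      rw [← Real.rpow_mul (by positivity), one_div, inv_mul_cancel₀ hη0.ne', Real.rpow_one] at h3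
      linarith
    have hlt : ∀ H, H₁ ≤ H → H ^ (-w) < C⁻¹ * (2 * H) ^ (-κ) := by
      intro H hH
      have hH0 : 0 < H := by linarith
      have e1 : H ^ (-w) = (H ^ η)⁻¹ * H ^ (-κ) := by
        rw [← Real.rpow_neg hH0.le, ← Real.rpow_add hH0, hη]; congr 1; ring
      rw [e1, Real.mul_rpow (by norm_num) hH0.le, Real.rpow_neg (by norm_num : (0 : ℝ) ≤ 2), ← mul_assoc, ← mul_inv]
      refine mul_lt_mul_of_pos_right ?_ (by positivity)
      exact inv_strictAnti₀ (by positivity) (hH₁C H hH)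
    obtain ⟨F, hF, hF0, hFs, hFa⟩ := h2 H₁ hH₁1
    refine ⟨F, hFs.1, hFs.2.1, ?_⟩
    have hle : ∀ H, H₁ ≤ H → ‖val t x F‖ ^ D ≤ H ^ (-w) := by
      intro H hH
      obtain ⟨R, hR, hRv⟩ := hnear H (hH₁0.trans hH)
      rcases hFa H (fun H' h3 _ => by
        obtain ⟨R', hR', hRv'⟩ := hnear H' (hH₁0.trans h3)
        exact ⟨R', hR', hRv'.trans_lt (hlt H' h3)⟩) H hH le_rfl R hR with h3 | ⟨_, h3⟩
      · exfalso
        have h4 := hlt H hH
        have hH0 : 0 < H := by linarith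
        have h5 : C⁻¹ * (2 * H) ^ (-κ) ≤ C⁻¹ * H ^ (-κ) := by
          refine mul_le_mul_of_nonneg_left ?_ (by positivity)
          exact Real.rpow_le_rpow_of_nonpos hH0 (by linarith) (by linarith)
        linarith
      · exact h3.trans hRv
    have hlim : Filter.Tendsto (fun H : ℝ => H ^ (-w)) Filter.atTop (nhds 0) :=
      tendsto_rpow_neg_atTop (by linarith)
    have h3 : ‖val t x F‖ ^ D ≤ 0 :=
      ge_of_tendsto hlim (Filter.eventually_atTop.2 ⟨H₁, hle⟩)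
    have h4 : ‖val t x F‖ ^ D = 0 := le_antisymm h3 (by positivity)
    exact norm_eq_zero.1 (pow_eq_zero_iff (by omega) |>.1 h4)

/-- **Gaps.** -/
theorem gaps (x : Fin n → ℝ) (D : ℕ) (κ K : ℝ) (hκ : 0 < κ) (T C : ℝ) (hC : 1 ≤ C) (h : Loc x D κ K T C)
    (ρ w : ℝ) (hρ : 1 < ρ) (hw : κ * ρ < w) : ∃ H₀ : ℝ, 3 ≤ H₀ ∧ ∀ t : ℂ, ‖t‖ ≤ T → ∀ X : ℝ, H₀ ≤ X →
      ∃ 𝓕 : Finset (MvPolynomial (Fin (n + 1)) ℤ), (𝓕.card : ℝ) ≤ Real.log (Real.log X) / Real.log ρ + 1 ∧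
        (∀ F ∈ 𝓕, Irreducible F ∧ 0 < F.degreeOf 0) ∧
        ∀ H, H₀ ≤ H → H ≤ X → ∀ R, Small D H R → ‖val t x R‖ ≤ H ^ (-w) → ∃ F ∈ 𝓕, F ∣ R := by
  classical
  have hC0 : 0 < C := by linarith
  have hρ0 : 0 < ρ := by linarith
  obtain ⟨η, hη⟩ : ∃ η : ℝ, η = w / ρ - κ := ⟨_, rfl⟩
  have hη0 : 0 < η := by
    rw [hη, sub_pos, lt_div_iff₀ hρ0]; exact hw
  obtain ⟨H₀, hH₀⟩ : ∃ H₀ : ℝ, H₀ = 3 + (C + 1) ^ (1 / η) := ⟨_, rfl⟩
  have hH₀3 : 3 ≤ H₀ := by
    rw [hH₀]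
    have : 0 < (C + 1) ^ (1 / η) := by positivity
    linarith
  have hH₀C : ∀ Y, H₀ ≤ Y → C < Y ^ η := by
    intro Y hY
    have h1 : (C + 1) ^ (1 / η) ≤ Y := by linarith
    have h2 : ((C + 1) ^ (1 / η)) ^ η ≤ Y ^ η := Real.rpow_le_rpow (by positivity) h1 hη0.le
    rw [← Real.rpow_mul (by positivity), one_div, inv_mul_cancel₀ hη0.ne', Real.rpow_one] at h2
    linarith
  have hH₀1 : 1 < H₀ := by linarith
  refine ⟨H₀, hH₀3, fun t ht X hX => ?_⟩
  have hloc := h.one t ht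
  have hlog0 : 1 < Real.log H₀ := by
    rw [Real.lt_log_iff_exp_lt (by linarith)]
    have := Real.exp_one_lt_d9
    linarith
  have hlogX : Real.log H₀ ≤ Real.log X := Real.log_le_log (by linarith) hX
  have hlρ : 0 < Real.log ρ := Real.log_pos hρ
  obtain ⟨q, hq⟩ : ∃ q : ℝ, q = Real.log (Real.log X / Real.log H₀) / Real.log ρ := ⟨_, rfl⟩
  have hq0 : 0 ≤ q := by
    rw [hq]
    refine div_nonneg (Real.log_nonneg ?_) hlρ.le
    rw [le_div_iff₀ (by linarith)]; linarith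
  have hqle : q ≤ Real.log (Real.log X) / Real.log ρ := by
    rw [hq, Real.log_div (by linarith) (by linarith)]
    refine div_le_div_of_nonneg_right ?_ hlρ.le
    have := Real.log_nonneg hlog0.le
    linarith
  -- the heights
  obtain ⟨Y, hY⟩ : ∃ Y : ℕ → ℝ, Y = fun k => H₀ ^ (ρ ^ k) := ⟨_, rfl⟩
  have hY1 : ∀ k, 1 ≤ Y k := fun k => by
    rw [hY]; exact Real.one_le_rpow (by linarith) (by positivity)
  choose F hF using fun k => hloc (Y k) (hY1 k)
  obtain ⟨N, hN⟩ : ∃ N : ℕ, N = ⌈q⌉₊ := ⟨_, rfl⟩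
  have hNq : q ≤ N := by rw [hN]; exact Nat.le_ceil q
  have hNq' : (N : ℝ) < q + 1 := by rw [hN]; exact Nat.ceil_lt_add_one hq0
  have hXY : X ≤ Y N := by
    rw [hY]
    have h1 : Real.log X ≤ Real.log (H₀ ^ ((ρ : ℝ) ^ N)) := by
      rw [Real.log_rpow (by linarith)]
      have h2 : Real.log (Real.log X / Real.log H₀) ≤ N * Real.log ρ := by
        rw [hq, div_le_iff₀ hlρ] at hNq
        exact hNq
      have h3 : Real.log X / Real.log H₀ ≤ ρ ^ N := by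
        rw [← Real.exp_log (show 0 < Real.log X / Real.log H₀ by
          refine div_pos (by linarith) (by linarith)), ← Real.exp_log hρ0, ← Real.exp_nat_mul]
        refine Real.exp_le_exp.2 ?_
        exact h2
      rw [div_le_iff₀ (by linarith)] at h3
      exact h3
    exact (Real.log_le_log_iff (by linarith) (by positivity)).1 h1
  by_cases hN0 : N = 0
  · -- then `X = H₀`
    refine ⟨{F 0}, ?_, ?_, ?_⟩
    · rw [Finset.card_singleton]
      push_cast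
      linarith
    · intro G hG
      rw [Finset.mem_singleton] at hG
      rw [hG]
      exact ⟨(hF 0).1, (hF 0).2.1⟩
    · intro H h1 h2 R hR hRv
      refine ⟨F 0, Finset.mem_singleton_self _, ?_⟩
      rw [hN0] at hXY
      have hY0 : Y 0 = H₀ := by rw [hY]; simp
      have hHH : H = H₀ := le_antisymm (by rw [← hY0]; linarith) h1
      rcases (hF 0).2.2.2 R (by rw [hY0, ← hHH]; exact hR) with h3 | h3
      · exfalso
        rw [hY0, ← hHH] at h3
        have hH0 : 0 < H := by linarith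
        have h4 : H ^ (-w) < C⁻¹ * H ^ (-κ) := by
          have h5 := hH₀C H h1
          have h6 : κ + η ≤ w := by
            rw [hη]
            have : w / ρ ≤ w := div_le_self (by nlinarith) hρ.le
            linarith
          calc H ^ (-w) ≤ H ^ (-(κ + η)) := Real.rpow_le_rpow_of_exponent_le (by linarith) (by linarith)
            _ = (H ^ η)⁻¹ * H ^ (-κ) := by
              rw [← Real.rpow_neg hH0.le, ← Real.rpow_add hH0]; congr 1; ring
            _ < C⁻¹ * H ^ (-κ) := mul_lt_mul_of_pos_right (inv_strictAnti₀ hC0 h5) (by positivity)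
        linarith
      · exact h3.1
  · refine ⟨(Finset.range N).image (fun k => F (k + 1)), ?_, ?_, ?_⟩
    · have h1 : (((Finset.range N).image (fun k => F (k + 1))).card : ℝ) ≤ N := by
        have := Finset.card_image_le (s := Finset.range N) (f := fun k => F (k + 1))
        rw [Finset.card_range] at this
        exact_mod_cast this
      linarith
    · intro G hG
      rw [Finset.mem_image] at hG
      obtain ⟨k, _, rfl⟩ := hG
      exact ⟨(hF _).1, (hF _).2.1⟩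
    · intro H h1 h2 R hR hRv
      have hH0 : 0 < H := by linarith
      -- the first `k` with `H ≤ Y k`
      have hex : ∃ k, H ≤ Y k := ⟨N, h2.trans hXY⟩
      obtain ⟨k, hk⟩ : ∃ k, k = Nat.find hex := ⟨_, rfl⟩
      have hk1 : H ≤ Y k := by rw [hk]; exact Nat.find_spec hex
      have hkN : k ≤ N := by rw [hk]; exact Nat.find_min' hex (h2.trans hXY)
      -- an index `m + 1` with `H ≤ Y (m + 1)` and `Y m ≤ H`
      obtain ⟨m, hmN, hm1, hm2⟩ : ∃ m, m < N ∧ H ≤ Y (m + 1) ∧ Y m ≤ H := by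
        rcases Nat.eq_zero_or_pos k with h0 | h0
        · refine ⟨0, by omega, ?_, ?_⟩
          · rw [h0] at hk1
            refine hk1.trans ?_
            rw [hY]
            exact Real.rpow_le_rpow_of_exponent_le hH₀1.le (pow_le_pow_right₀ hρ.le (by norm_num))
          · have hY0 : Y 0 = H₀ := by rw [hY]; simp
            rw [hY0]; exact h1
        · refine ⟨k - 1, by omega, ?_, ?_⟩
          · rwa [Nat.sub_add_cancel h0]
          · have h3 : ¬ H ≤ Y (k - 1) := by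
              rw [hk]
              exact Nat.find_min hex (by omega)
            push Not at h3
            exact h3.le
      refine ⟨F (m + 1), Finset.mem_image.2 ⟨m, Finset.mem_range.2 hmN, rfl⟩, ?_⟩
      rcases (hF (m + 1)).2.2.2 R (hR.mono hm1) with h3 | h3
      · exfalso
        have hYm : H₀ ≤ Y m := by
          rw [hY]
          calc H₀ = H₀ ^ (1 : ℝ) := (Real.rpow_one _).symm
            _ ≤ H₀ ^ (ρ ^ m) := Real.rpow_le_rpow_of_exponent_le hH₀1.le (one_le_pow₀ hρ.le)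
        have hYm0 : 0 < Y m := by linarith
        have hYm1 : Y (m + 1) = Y m ^ ρ := by
          rw [hY]
          show H₀ ^ (ρ ^ (m + 1)) = (H₀ ^ (ρ ^ m)) ^ ρ
          rw [← Real.rpow_mul (by linarith), pow_succ]
        have hYY : Y m ≤ Y (m + 1) := by
          rw [hYm1]
          calc Y m = Y m ^ (1 : ℝ) := (Real.rpow_one _).symm
            _ ≤ Y m ^ ρ := Real.rpow_le_rpow_of_exponent_le (by linarith) hρ.le
        have hw0 : 0 < w := lt_trans (by positivity) hw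
        have h4 : H ^ (-w) ≤ (Y m) ^ (-w) := Real.rpow_le_rpow_of_nonpos hYm0 hm2 (by linarith)
        have h5 : (Y m) ^ (-w) = (Y (m + 1)) ^ (-(κ + η)) := by
          rw [hYm1, ← Real.rpow_mul hYm0.le]
          congr 1
          rw [hη]
          field_simp
          ring
        have hY1' : 0 < Y (m + 1) := by linarith
        have h6 : (Y (m + 1)) ^ (-(κ + η)) < C⁻¹ * (Y (m + 1)) ^ (-κ) := by
          have h7 := hH₀C (Y (m + 1)) (hYm.trans hYY)
          calc (Y (m + 1)) ^ (-(κ + η)) = ((Y (m + 1)) ^ η)⁻¹ * (Y (m + 1)) ^ (-κ) := by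
                rw [← Real.rpow_neg hY1'.le, ← Real.rpow_add hY1']; congr 1; ring
            _ < C⁻¹ * (Y (m + 1)) ^ (-κ) := mul_lt_mul_of_pos_right (inv_strictAnti₀ hC0 h7) (by positivity)
        linarith
      · exact h3.1

end Pool.Agent.Run7.h168.Near
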