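import Pool.Agent.Run7.h168.Mult.Gam

/-!
# Families with a measure of algebraic independence
-/

set_option autoImplicit false

namespace Pool.Agent.Run7.h168.Near

open Finset Pool.Agent.R356 Pool.Agent.N743.SS Pool.Agent.TH456.TM Pool.Agent.R352.E

/-- replace one number `w` of a family by `w ^ (-q)` -/
theorem measM_inv_pow {κ : Type} [Finite κ] (x : Option κ → ℝ) (hx : MeasM x) (hx0 : x none ≠ 0) (q : ℕ) (hq : 1 ≤ q) :
    MeasM (fun o : Option κ => o.elim ((x none ^ q)⁻¹) (fun i => x (some i))) := by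
  classical
  have := Fintype.ofFinite κ
  intro D
  obtain ⟨r, c, hr, hc, hm⟩ := hx (q * D + D)
  have hw0 : 0 < |x none ^ (q * D)| := abs_pos.2 (pow_ne_zero _ hx0)
  refine ⟨r, c / |x none ^ (q * D)|, hr, by positivity, fun P hP hPD H hH => ?_⟩
  -- the new exponents
  obtain ⟨f, hf⟩ : ∃ f : (Option κ →₀ ℕ) → (Option κ →₀ ℕ), ∀ s, f s none = q * (D - s none) ∧ ∀ i, f s (some i) = s (some i) :=
    ⟨fun s => Finsupp.equivFunOnFinite.symm (fun o => o.elim (q * (D - s none)) (fun i => s (some i))),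
      fun s => ⟨rfl, fun i => rfl⟩⟩
  have hsn : ∀ s ∈ P.support, s none ≤ D := by
    intro s hs
    have h1 := MvPolynomial.le_totalDegree hs
    have h2 : s none ≤ s.sum fun _ e => e := by
      by_cases hi : none ∈ s.support
      · exact Finset.single_le_sum (f := fun i => s i) (fun _ _ => Nat.zero_le _) hi
      · rw [Finsupp.notMem_support_iff.1 hi]; exact Nat.zero_le _
    omega
  have hinj : ∀ s ∈ P.support, ∀ t ∈ P.support, f s = f t → s = t := by
    intro s hs t ht hst
    have h0 := congrArg (fun u : Option κ →₀ ℕ => u none) hst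
    simp only [(hf s).1, (hf t).1] at h0
    have h1 : D - s none = D - t none := Nat.eq_of_mul_eq_mul_left (by omega) h0
    have hs' := hsn s hs
    have ht' := hsn t ht
    ext o
    cases o with
    | none => omega
    | some i =>
      have h2 := congrArg (fun u : Option κ →₀ ℕ => u (some i)) hst
      simpa only [(hf s).2, (hf t).2] using h2
  obtain ⟨Q, hQ⟩ : ∃ Q : MvPolynomial (Option κ) ℤ, Q = ∑ s ∈ P.support, MvPolynomial.monomial (f s) (P.coeff s) := ⟨_, rfl⟩
  have hQc : ∀ u, Q.coeff u = ∑ s ∈ P.support, if f s = u then P.coeff s else 0 := by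
    intro u
    rw [hQ, MvPolynomial.coeff_sum]
    exact Finset.sum_congr rfl fun s _ => MvPolynomial.coeff_monomial _ _ _
  have hQf : ∀ s ∈ P.support, Q.coeff (f s) = P.coeff s := by
    intro s hs
    rw [hQc, Finset.sum_eq_single s]
    · rw [if_pos rfl]
    · intro t ht hts
      rw [if_neg]
      intro h
      exact hts (hinj t ht s hs h)
    · intro h; exact absurd hs h
  have hQ0 : Q ≠ 0 := by
    obtain ⟨s, hs⟩ := MvPolynomial.support_nonempty.2 hP
    intro h0
    have h1 := hQf s hs
    rw [h0, MvPolynomial.coeff_zero] at h1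
    exact MvPolynomial.mem_support_iff.1 hs h1.symm
  have hH0 : 0 ≤ H := (abs_nonneg _).trans (hH 0)
  have hQH : ∀ u, |((Q.coeff u : ℤ) : ℝ)| ≤ H := by
    intro u
    by_cases hu : ∃ s ∈ P.support, f s = u
    · obtain ⟨s, hs, rfl⟩ := hu
      rw [hQf s hs]
      exact hH s
    · push Not at hu
      rw [hQc, Finset.sum_eq_zero (fun s hs => if_neg (hu s hs)), Int.cast_zero, abs_zero]
      exact hH0
  have hQD : Q.totalDegree ≤ q * D + D := by
    rw [hQ]
    refine MvPolynomial.totalDegree_finsetSum_le fun s hs => ?_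
    refine (MvPolynomial.totalDegree_monomial_le _ _).trans ?_
    rw [Finsupp.sum_fintype _ _ (fun _ => rfl), Fintype.sum_option, (hf s).1]
    simp only [(hf s).2]
    have h1 := MvPolynomial.le_totalDegree hs
    rw [Finsupp.sum_fintype _ _ (fun _ => rfl), Fintype.sum_option] at h1
    have h2 : q * (D - s none) ≤ q * D := Nat.mul_le_mul_left _ (Nat.sub_le _ _)
    simp only [id]
    omega
  have hval : MvPolynomial.aeval x Q = x none ^ (q * D) *
      MvPolynomial.aeval (fun o : Option κ => o.elim ((x none ^ q)⁻¹) (fun i => x (some i))) P := by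
    rw [hQ, map_sum]
    conv_rhs => rw [MvPolynomial.as_sum P, map_sum]
    rw [Finset.mul_sum]
    refine Finset.sum_congr rfl fun s hs => ?_
    rw [MvPolynomial.aeval_monomial, MvPolynomial.aeval_monomial, Finsupp.prod_fintype _ _ (fun _ => pow_zero _),
      Finsupp.prod_fintype _ _ (fun _ => pow_zero _), Fintype.prod_option, Fintype.prod_option, (hf s).1]
    simp only [(hf s).2, Option.elim_none, Option.elim_some]
    have h1 : x none ^ (q * (D - s none)) = x none ^ (q * D) * ((x none ^ q)⁻¹) ^ s none := by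
      have h2 := hsn s hs
      rw [inv_pow, ← pow_mul, eq_mul_inv_iff_mul_eq₀ (pow_ne_zero _ hx0), ← pow_add, ← Nat.mul_add,
        Nat.sub_add_cancel h2]
    rw [h1]
    ring
  have h1 := hm Q hQ0 hQD H hQH
  rw [hval, abs_mul] at h1
  rw [div_mul_eq_mul_div, div_le_iff₀ hw0]
  linarith

/-- `e` and values of iterated exponential integrals -/
theorem measM_e_EE {n : ℕ} (z : Fin n → ℕ × ℚ) (hz : Function.Injective z) (hl : ∀ i, 1 ≤ (z i).1)
    (hs : ∀ i, 0 < (z i).2) :
    MeasM (Fin.cons (Real.exp 1) (fun i => EE (z i).1 ((z i).2 : ℚ)) : Fin (n + 1) → ℝ) := by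
  classical
  obtain ⟨q, m₀, hq, hm₀, hmq⟩ := Mult.common_den (fun i => (z i).2) hs
  have hq0 : (q : ℝ) ≠ 0 := by positivity
  obtain ⟨S, hS⟩ : ∃ S : Finset ℕ, S = Finset.univ.image m₀ := ⟨_, rfl⟩
  have hmS : ∀ i, m₀ i ∈ S := fun i => by rw [hS]; exact Finset.mem_image_of_mem _ (Finset.mem_univ _)
  obtain ⟨e, -⟩ : ∃ e : S ≃ Fin S.card, e = S.equivFin := ⟨_, rfl⟩
  obtain ⟨J, hJ⟩ : ∃ J : ℕ, J = 1 + ∑ i, (z i).1 := ⟨_, rfl⟩
  have hlJ : ∀ i, (z i).1 - 1 < J := by
    intro i
    have := Finset.single_le_sum (f := fun i => (z i).1) (fun _ _ => Nat.zero_le _) (Finset.mem_univ i)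
    have := hl i
    omega
  have hmeas := measM_EE J S.card (fun j => ((e.symm j : S) : ℕ)) (fun a b h => e.symm.injective (Subtype.ext h))
    (fun j => by
      have h0 : ∀ a ∈ S, 1 ≤ a := by
        intro a ha
        rw [hS, Finset.mem_image] at ha
        obtain ⟨i, _, h2⟩ := ha
        rw [← h2]
        exact hm₀ i
      exact h0 _ (e.symm j).2) hq
  obtain ⟨g, hg⟩ : ∃ g : Option (Fin n) → Option (Fin J × Fin S.card), g = fun o => o.map (fun i =>
      (⟨(z i).1 - 1, hlJ i⟩, e ⟨m₀ i, hmS i⟩)) := ⟨_, rfl⟩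
  have hginj : Function.Injective g := by
    rw [hg]
    refine Option.map_injective fun i j hij => ?_
    have h1 := congrArg Prod.fst hij
    have h2 := congrArg Prod.snd hij
    simp only [Fin.mk.injEq] at h1
    have h3 := congrArg Subtype.val (e.injective h2)
    simp only at h3
    apply hz
    refine Prod.ext ?_ ?_
    · have := hl i
      have := hl j
      omega
    · have h4 := hmq i
      have h5 := hmq j
      rw [h3] at h4
      exact_mod_cast h4.symm.trans h5
  have h2 := hmeas.comp g hginj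
  obtain ⟨y, hy⟩ : ∃ y : Option (Fin n) → ℝ, y = (fun o : Option (Fin J × Fin S.card) =>
      (o.elim (Real.exp (-1 / q)) (fun p => EE (p.1 + 1) ((((e.symm p.2 : S) : ℕ) : ℝ) / q)) : ℝ)) ∘ g := ⟨_, rfl⟩
  rw [← hy] at h2
  have hyn : y none = Real.exp (-1 / q) := by rw [hy, hg]; rfl
  have hys : ∀ i, y (some i) = EE (z i).1 ((z i).2 : ℚ) := by
    intro i
    rw [hy, hg]
    simp only [Function.comp_apply, Option.map_some, Option.elim_some, Equiv.symm_apply_apply]
    rw [hmq i, Nat.sub_add_cancel (hl i)]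
  have h3 := measM_inv_pow y h2 (by rw [hyn]; exact (Real.exp_pos _).ne') q hq
  have h4 := h3.comp (finSuccEquiv n) (finSuccEquiv n).injective
  convert h4 using 1
  funext j
  refine Fin.cases ?_ (fun i => ?_) j
  · simp only [Fin.cons_zero, Function.comp_apply, finSuccEquiv_zero, Option.elim_none]
    rw [hyn, ← Real.exp_nat_mul, ← Real.exp_neg]
    congr 1
    field_simp
  · simp only [Fin.cons_succ, Function.comp_apply, finSuccEquiv_succ, Option.elim_some]
    rw [hys]

end Pool.Agent.Run7.h168.Near
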