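import Pool.Agent.R356.Joint

/-!
# The coefficients of a factor of an integer polynomial in several variables
-/

set_option autoImplicit false

namespace Pool.Agent.Run7.h168.Near

open Finset

/-- the value of an exponent in base `D + 1` -/
def wt (D : ℕ) {n : ℕ} (s : Fin n → ℕ) : ℕ := ∑ i : Fin n, s i * (D + 1) ^ (i : ℕ)

lemma wt_succ (D : ℕ) {n : ℕ} (s : Fin (n + 1) → ℕ) : wt D s = s 0 + (D + 1) * wt D (fun i => s i.succ) := by
  unfold wt
  rw [Fin.sum_univ_succ, mul_sum]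
  congr 1
  · simp
  · refine sum_congr rfl fun i _ => ?_
    rw [Fin.val_succ, pow_succ]
    ring

lemma wt_inj (D : ℕ) {n : ℕ} (s s' : Fin n → ℕ) (hs : ∀ i, s i ≤ D) (hs' : ∀ i, s' i ≤ D) (h : wt D s = wt D s') :
    s = s' := by
  induction n with
  | zero => exact Subsingleton.elim _ _
  | succ n ih =>
    rw [wt_succ, wt_succ] at h
    have h1 : s 0 = s' 0 := by
      have h2 := congrArg (fun z => z % (D + 1)) h
      simp only [Nat.add_mul_mod_self_left] at h2
      rwa [Nat.mod_eq_of_lt (Nat.lt_succ_of_le (hs 0)), Nat.mod_eq_of_lt (Nat.lt_succ_of_le (hs' 0))] at h2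
    rw [h1] at h
    have h3 : wt D (fun i => s i.succ) = wt D (fun i => s' i.succ) :=
      Nat.eq_of_mul_eq_mul_left (Nat.succ_pos D) (Nat.add_left_cancel h)
    have h4 := ih (fun i => s i.succ) (fun i => s' i.succ) (fun i => hs _) (fun i => hs' _) h3
    funext i
    refine Fin.cases h1 (fun j => ?_) i
    exact congrFun h4 j

lemma wt_le (D : ℕ) {n : ℕ} (s : Fin n → ℕ) (hs : ∀ i, s i ≤ D) : wt D s ≤ ∑ i : Fin n, D * (D + 1) ^ (i : ℕ) :=
  sum_le_sum fun i _ => Nat.mul_le_mul_right _ (hs i)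

/-- the substitution of Kronecker -/
noncomputable def kro (D n : ℕ) : MvPolynomial (Fin n) ℤ →ₐ[ℤ] Polynomial ℤ :=
  MvPolynomial.aeval (fun i => Polynomial.X ^ ((D + 1) ^ (i : ℕ)))

lemma kro_eq (D n : ℕ) (P : MvPolynomial (Fin n) ℤ) :
    kro D n P = ∑ s ∈ P.support, Polynomial.C (P.coeff s) * Polynomial.X ^ wt D s := by
  unfold kro
  rw [MvPolynomial.aeval_def, MvPolynomial.eval₂_eq']
  refine sum_congr rfl fun s _ => ?_
  congr 1
  unfold wt
  rw [← prod_pow_eq_pow_sum]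
  refine prod_congr rfl fun i _ => ?_
  rw [← pow_mul]
  congr 1
  ring

/-- the exponents are at most `D` -/
def Bdd (D : ℕ) {n : ℕ} (P : MvPolynomial (Fin n) ℤ) : Prop := ∀ s ∈ P.support, ∀ i, s i ≤ D

lemma bdd_of_totalDegree {D n : ℕ} {P : MvPolynomial (Fin n) ℤ} (h : P.totalDegree ≤ D) : Bdd D P := by
  intro s hs i
  have h1 := MvPolynomial.le_totalDegree hs
  have h2 : s i ≤ s.sum fun _ e => e := by
    by_cases hi : i ∈ s.support
    · exact Finset.single_le_sum (f := fun i => s i) (fun _ _ => Nat.zero_le _) hi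
    · rw [Finsupp.notMem_support_iff.1 hi]; exact Nat.zero_le _
  omega

lemma kro_coeff {D n : ℕ} {P : MvPolynomial (Fin n) ℤ} (hP : Bdd D P) (s : Fin n →₀ ℕ) (hs : ∀ i, s i ≤ D) :
    (kro D n P).coeff (wt D s) = P.coeff s := by
  classical
  rw [kro_eq, Polynomial.finset_sum_coeff]
  by_cases h : s ∈ P.support
  · rw [sum_eq_single s]
    · rw [Polynomial.coeff_C_mul_X_pow, if_pos rfl]
    · intro t ht hts
      rw [Polynomial.coeff_C_mul_X_pow, if_neg]
      intro h1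
      exact hts (DFunLike.coe_injective (wt_inj D _ _ (hP t ht) hs h1.symm))
    · intro h1
      exact absurd h h1
  · rw [MvPolynomial.notMem_support_iff.1 h]
    refine sum_eq_zero fun t ht => ?_
    rw [Polynomial.coeff_C_mul_X_pow, if_neg]
    intro h1
    have h2 : t = s := DFunLike.coe_injective (wt_inj D _ _ (hP t ht) hs h1.symm)
    rw [h2] at ht
    exact h ht

lemma kro_ne_zero {D n : ℕ} {P : MvPolynomial (Fin n) ℤ} (hP : Bdd D P) (h0 : P ≠ 0) : kro D n P ≠ 0 := by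
  obtain ⟨s, hs⟩ := MvPolynomial.support_nonempty.2 h0
  intro h
  have h1 := kro_coeff hP s (hP s hs)
  rw [h, Polynomial.coeff_zero] at h1
  exact MvPolynomial.mem_support_iff.1 hs h1.symm

lemma kro_natDegree {D n : ℕ} {P : MvPolynomial (Fin n) ℤ} (hP : Bdd D P) :
    (kro D n P).natDegree ≤ ∑ i : Fin n, D * (D + 1) ^ (i : ℕ) := by
  rw [kro_eq]
  refine Polynomial.natDegree_sum_le_of_forall_le _ _ fun s hs => ?_
  exact (Polynomial.natDegree_C_mul_X_pow_le _ _).trans (wt_le D s (hP s hs))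

lemma card_support_le {D n : ℕ} {P : MvPolynomial (Fin n) ℤ} (hP : Bdd D P) : P.support.card ≤ (D + 1) ^ n := by
  classical
  have h1 : P.support.card ≤ (Finset.univ : Finset (Fin n → Fin (D + 1))).card := by
    refine Finset.card_le_card_of_injOn (fun s i => ⟨min (s i) D, Nat.lt_succ_of_le (min_le_right _ _)⟩)
      (fun _ _ => Finset.mem_coe.2 (Finset.mem_univ _)) ?_
    intro s hs t ht hst
    ext i
    have h2 := congrFun hst i
    simp only [Fin.mk.injEq] at h2
    rwa [min_eq_left (hP s (Finset.mem_coe.1 hs) i), min_eq_left (hP t (Finset.mem_coe.1 ht) i)] at h2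
  rwa [Finset.card_univ, Fintype.card_fun, Fintype.card_fin, Fintype.card_fin] at h1

lemma kro_coeff_le {D n : ℕ} {P : MvPolynomial (Fin n) ℤ} (hP : Bdd D P) (H : ℝ)
    (hH : ∀ s, |((P.coeff s : ℤ) : ℝ)| ≤ H) (k : ℕ) : |(((kro D n P).coeff k : ℤ) : ℝ)| ≤ (D + 1) ^ n * H := by
  have hH0 : 0 ≤ H := (abs_nonneg _).trans (hH 0)
  rw [kro_eq, Polynomial.finset_sum_coeff]
  push_cast
  refine (Finset.abs_sum_le_sum_abs _ _).trans ?_
  have h1 : ∀ s ∈ P.support, |(((Polynomial.C (P.coeff s) * Polynomial.X ^ wt D s : Polynomial ℤ).coeff k : ℤ) : ℝ)| ≤ H := by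
    intro s _
    rw [Polynomial.coeff_C_mul_X_pow]
    split_ifs
    · exact hH s
    · simpa using hH0
  refine (Finset.sum_le_card_nsmul _ _ _ h1).trans ?_
  rw [nsmul_eq_mul]
  refine mul_le_mul_of_nonneg_right ?_ hH0
  exact_mod_cast card_support_le hP

/-- **The coefficients of a factor.** -/
theorem factor (D n : ℕ) : ∃ K : ℝ, 1 ≤ K ∧ ∀ F P : MvPolynomial (Fin n) ℤ, P ≠ 0 → P.totalDegree ≤ D → F ∣ P →
    ∀ H : ℝ, (∀ s, |((P.coeff s : ℤ) : ℝ)| ≤ H) → ∀ s, |((F.coeff s : ℤ) : ℝ)| ≤ K * H := by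
  obtain ⟨N, hN⟩ : ∃ N : ℕ, N = ∑ i : Fin n, D * (D + 1) ^ (i : ℕ) := ⟨_, rfl⟩
  refine ⟨2 ^ N * (N + 1) * (D + 1) ^ n, ?_, ?_⟩
  · have h1 : (1 : ℝ) ≤ 2 ^ N := one_le_pow₀ (by norm_num)
    have h2 : (1 : ℝ) ≤ N + 1 := by linarith [Nat.cast_nonneg (α := ℝ) N]
    have h3 : (1 : ℝ) ≤ (D + 1) ^ n := one_le_pow₀ (by linarith [Nat.cast_nonneg (α := ℝ) D])
    exact one_le_mul_of_one_le_of_one_le (one_le_mul_of_one_le_of_one_le h1 h2) h3
  · rintro F P hP hPD ⟨G, hG⟩ H hH s
    have hH0 : 0 ≤ H := (abs_nonneg _).trans (hH 0)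
    have hF0 : F ≠ 0 := by rintro rfl; exact hP (by rw [hG, zero_mul])
    have hG0 : G ≠ 0 := by rintro rfl; exact hP (by rw [hG, mul_zero])
    have hdeg : P.totalDegree = F.totalDegree + G.totalDegree := by
      rw [hG]; exact MvPolynomial.totalDegree_mul_of_isDomain hF0 hG0
    have hPB := bdd_of_totalDegree hPD
    have hFB : Bdd D F := bdd_of_totalDegree (by omega)
    have hGB : Bdd D G := bdd_of_totalDegree (by omega)
    by_cases hs : s ∈ F.support
    · have h1 := Pool.Agent.R356.height_factor N (kro D n F) (kro D n G) (kro_ne_zero hFB hF0) (kro_ne_zero hGB hG0)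
        (by rw [← map_mul, ← hG, hN]; exact kro_natDegree hPB) ((D + 1) ^ n * H)
        (fun k => by rw [← map_mul, ← hG]; exact kro_coeff_le hPB H hH k) (wt D s)
      rw [kro_coeff hFB s (hFB s hs)] at h1
      refine h1.trans (le_of_eq ?_)
      ring
    · rw [MvPolynomial.notMem_support_iff.1 hs, Int.cast_zero, abs_zero]
      positivity

end Pool.Agent.Run7.h168.Near
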