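import Pool.Agent.Run7.h168.Near.Two

/-!
# A small irreducible factor of a polynomial with a small value, and the local structure
-/

set_option autoImplicit false

namespace Pool.Agent.Run7.h168.Near

open Finset Pool.Agent.R356 Pool.Agent.N743.SS

variable {n : ℕ}

lemma val_mul (t : ℂ) (x : Fin n → ℝ) (F G : MvPolynomial (Fin (n + 1)) ℤ) : val t x (F * G) = val t x F * val t x G := by
  unfold val; exact map_mul _ _ _

lemma norm_val_const (t : ℂ) (x : Fin n → ℝ) (F : MvPolynomial (Fin (n + 1)) ℤ) (h0 : F ≠ 0) (h : F.totalDegree = 0) :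
    1 ≤ ‖val t x F‖ := by
  rw [MvPolynomial.totalDegree_eq_zero_iff_eq_C] at h
  rw [h] at h0 ⊢
  have h1 : F.coeff 0 ≠ 0 := by
    intro h2
    rw [h2, map_zero] at h0
    exact h0 rfl
  unfold val
  rw [MvPolynomial.aeval_C, algebraMap_int_eq, eq_intCast, Complex.norm_intCast]
  exact_mod_cast Int.one_le_abs h1

/-- all irreducible factors of positive degree are larger than `δ` -/
lemma big_of_factors (t : ℂ) (x : Fin n → ℝ) (δ : ℝ) (hδ0 : 0 ≤ δ) (hδ1 : δ ≤ 1) (R : MvPolynomial (Fin (n + 1)) ℤ) :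
    R ≠ 0 → (∀ F, Irreducible F → F ∣ R → 0 < F.totalDegree → δ < ‖val t x F‖) →
      0 < ‖val t x R‖ ∧ δ ^ R.totalDegree ≤ ‖val t x R‖ ∧ (0 < R.totalDegree → δ ^ R.totalDegree < ‖val t x R‖) := by
  refine WfDvdMonoid.induction_on_irreducible (motive := fun R => R ≠ 0 →
    (∀ F, Irreducible F → F ∣ R → 0 < F.totalDegree → δ < ‖val t x F‖) →
      0 < ‖val t x R‖ ∧ δ ^ R.totalDegree ≤ ‖val t x R‖ ∧ (0 < R.totalDegree → δ ^ R.totalDegree < ‖val t x R‖)) R ?_ ?_ ?_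
  · intro h; exact absurd rfl h
  · intro u hu hu0 _
    have h1 : u.totalDegree = 0 := by
      obtain ⟨v, hv⟩ := hu.exists_right_inv
      have hv0 : v ≠ 0 := by rintro rfl; rw [mul_zero] at hv; exact zero_ne_one hv
      have h2 := MvPolynomial.totalDegree_mul_of_isDomain hu0 hv0
      rw [hv, MvPolynomial.totalDegree_one] at h2
      omega
    have h2 := norm_val_const t x u hu0 h1
    rw [h1, pow_zero]
    exact ⟨by linarith, h2, fun h => absurd h (lt_irrefl _)⟩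
  · intro a i ha0 hi ih hia0 hfac
    have hi0 : i ≠ 0 := hi.ne_zero
    obtain ⟨h1, h2, h3⟩ := ih ha0 (fun F hF hFa => hfac F hF (hFa.mul_left _))
    have hdeg := MvPolynomial.totalDegree_mul_of_isDomain hi0 ha0
    rw [hdeg, val_mul, norm_mul]
    rcases Nat.eq_zero_or_pos i.totalDegree with h4 | h4
    · have h5 := norm_val_const t x i hi0 h4
      rw [h4, zero_add]
      refine ⟨by positivity, h2.trans (le_mul_of_one_le_left h1.le h5), fun h6 => ?_⟩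
      exact (h3 h6).trans_le (le_mul_of_one_le_left h1.le h5)
    · have h5 := hfac i hi (dvd_mul_right _ _) h4
      have h6 : δ ^ i.totalDegree ≤ δ := pow_le_of_le_one hδ0 hδ1 (by omega)
      have h7 : δ ^ (i.totalDegree + a.totalDegree) < ‖val t x i‖ * ‖val t x a‖ := by
        rw [pow_add]
        calc δ ^ i.totalDegree * δ ^ a.totalDegree ≤ δ * ‖val t x a‖ :=
              mul_le_mul h6 h2 (by positivity) hδ0
          _ < ‖val t x i‖ * ‖val t x a‖ := mul_lt_mul_of_pos_right h5 h1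
      exact ⟨by have : 0 < ‖val t x i‖ := lt_of_le_of_lt hδ0 h5
                positivity, h7.le, fun _ => h7⟩

/-- the polynomials without the variable `t` -/
lemma low_t (x : Fin n → ℝ) (D : ℕ) (r c : ℝ) (hm : ∀ P : MvPolynomial (Fin n) ℤ, P ≠ 0 → P.totalDegree ≤ D →
    ∀ H : ℝ, (∀ s, |((P.coeff s : ℤ) : ℝ)| ≤ H) → c * H ^ (-r) ≤ |MvPolynomial.aeval x P|) (t : ℂ)
    (F : MvPolynomial (Fin (n + 1)) ℤ) (hF0 : F ≠ 0) (hFD : F.totalDegree ≤ D) (h0 : F.degreeOf 0 = 0) (H : ℝ)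
    (hFH : ∀ s, |((F.coeff s : ℤ) : ℝ)| ≤ H) : c * H ^ (-r) ≤ ‖val t x F‖ := by
  have h1 : fse F = Polynomial.C ((fse F).coeff 0) := Polynomial.eq_C_of_natDegree_eq_zero (by rw [fse_natDegree]; exact h0)
  have h2 : (fse F).coeff 0 ≠ 0 := by
    intro h3
    rw [h3, map_zero] at h1
    exact hF0 ((MvPolynomial.finSuccEquiv ℤ n).injective (h1.trans (map_zero _).symm))
  have h3 := hm _ h2 (fse_coeff_degree F D hFD 0) H (fse_coeff_le F H hFH 0)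
  rw [val_eq, h1, Polynomial.map_C, Polynomial.eval_C, norm_ev]
  exact h3

/-- **A small irreducible factor.** -/
theorem small_factor (x : Fin n → ℝ) (hx : MeasM x) (D : ℕ) (hD : 1 ≤ D) : ∃ κ C : ℝ, 0 < κ ∧ 1 ≤ C ∧
    ∀ t : ℂ, ∀ H : ℝ, 1 ≤ H → ∀ R : MvPolynomial (Fin (n + 1)) ℤ, R ≠ 0 → R.totalDegree ≤ D →
      (∀ s, |((R.coeff s : ℤ) : ℝ)| ≤ H) → ‖val t x R‖ < C⁻¹ * H ^ (-κ) →
      ∃ F, Irreducible F ∧ F ∣ R ∧ 0 < F.degreeOf 0 ∧ F.totalDegree ≤ D ∧ (∀ s, |((F.coeff s : ℤ) : ℝ)| ≤ C * H) ∧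
        ‖val t x F‖ ^ D ≤ ‖val t x R‖ := by
  obtain ⟨K, hK1, hK⟩ := factor D (n + 1)
  obtain ⟨r, c, hr, hc, hm⟩ := hx D
  obtain ⟨c₁, hc₁⟩ : ∃ c₁ : ℝ, c₁ = min 1 (c * K ^ (-r)) := ⟨_, rfl⟩
  have hc₁0 : 0 < c₁ := by rw [hc₁]; positivity
  have hc₁1 : c₁ ≤ 1 := by rw [hc₁]; exact min_le_left _ _
  have hc₁D : c₁ ^ D ≤ 1 := pow_le_one₀ hc₁0.le hc₁1
  refine ⟨r * D, K + (c₁ ^ D)⁻¹, by positivity, by
    have : 0 < (c₁ ^ D)⁻¹ := by positivity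
    linarith, ?_⟩
  intro t H hH R hR0 hRD hRH hsm
  have hH0 : 0 < H := by linarith
  have hCK : K ≤ K + (c₁ ^ D)⁻¹ := by
    have : 0 < (c₁ ^ D)⁻¹ := by positivity
    linarith
  have hCi : (K + (c₁ ^ D)⁻¹)⁻¹ ≤ c₁ ^ D := by
    rw [inv_le_comm₀ (by positivity) (by positivity)]
    linarith
  have hsm' : ‖val t x R‖ < (c₁ * H ^ (-r)) ^ D := by
    refine hsm.trans_le ?_
    rw [mul_pow, ← Real.rpow_natCast (H ^ (-r)), ← Real.rpow_mul hH0.le, show -r * (D : ℝ) = -(r * D) by ring]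
    exact mul_le_mul_of_nonneg_right hCi (by positivity)
  have hHr : H ^ (-r) ≤ 1 := Real.rpow_le_one_of_one_le_of_nonpos hH (by linarith)
  by_contra hcon
  push Not at hcon
  obtain ⟨δ, hδ⟩ : ∃ δ : ℝ, δ = ‖val t x R‖ ^ ((D : ℝ)⁻¹) := ⟨_, rfl⟩
  have hδ0 : 0 ≤ δ := by rw [hδ]; positivity
  have hδD : δ ^ D = ‖val t x R‖ := by
    rw [hδ]; exact Real.rpow_inv_natCast_pow (norm_nonneg _) (by omega)
  have hδlt : δ < c₁ * H ^ (-r) := by
    have h1 : δ ^ D < (c₁ * H ^ (-r)) ^ D := by rw [hδD]; exact hsm'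
    exact lt_of_pow_lt_pow_left₀ D (by positivity) h1
  have hδ1 : δ ≤ 1 := by
    have : c₁ * H ^ (-r) ≤ 1 := mul_le_one₀ hc₁1 (by positivity) hHr
    linarith
  have hbig := big_of_factors t x δ hδ0 hδ1 R hR0 (fun F hF hFR hFpos => by
    have hFD : F.totalDegree ≤ D := by
      obtain ⟨G, hG⟩ := hFR
      have hG0 : G ≠ 0 := by rintro rfl; exact hR0 (by rw [hG, mul_zero])
      have := MvPolynomial.totalDegree_mul_of_isDomain hF.ne_zero hG0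
      rw [← hG] at this
      omega
    have hFc := hK F R hR0 hRD hFR H hRH
    rcases Nat.eq_zero_or_pos (F.degreeOf 0) with h0 | h0
    · have h1 := low_t x D r c hm t F hF.ne_zero hFD h0 (K * H) hFc
      refine lt_of_lt_of_le hδlt (le_trans ?_ h1)
      rw [Real.mul_rpow (by linarith) hH0.le, ← mul_assoc]
      refine mul_le_mul_of_nonneg_right ?_ (by positivity)
      rw [hc₁]; exact min_le_right _ _
    · have h1 := hcon F hF hFR h0 hFD (fun s => (hFc s).trans (mul_le_mul_of_nonneg_right hCK hH0.le))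
      rw [← hδD] at h1
      exact lt_of_pow_lt_pow_left₀ D (norm_nonneg _) h1)
  obtain ⟨h1, h2, h3⟩ := hbig
  rcases Nat.eq_zero_or_pos R.totalDegree with h4 | h4
  · have h5 := norm_val_const t x R hR0 h4
    have h6 : (c₁ * H ^ (-r)) ^ D ≤ 1 := pow_le_one₀ (by positivity) (mul_le_one₀ hc₁1 (by positivity) hHr)
    linarith
  · have h5 := h3 h4
    have h6 : δ ^ D ≤ δ ^ R.totalDegree := pow_le_pow_of_le_one hδ0 hδ1 hRD
    rw [hδD] at h6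
    linarith

/-- `R` is a nonzero polynomial of degree at most `D` with coefficients at most `H` -/
def Small (D : ℕ) (H : ℝ) (R : MvPolynomial (Fin (n + 1)) ℤ) : Prop :=
  R ≠ 0 ∧ R.totalDegree ≤ D ∧ ∀ s, |((R.coeff s : ℤ) : ℝ)| ≤ H

/-- **The local structure of the near relations.** -/
theorem local_structure (x : Fin n → ℝ) (hx : MeasM x) (D : ℕ) (hD : 1 ≤ D) : ∃ κ K : ℝ, 0 < κ ∧ 1 ≤ K ∧
    ∀ T : ℝ, 1 ≤ T → ∃ C : ℝ, 1 ≤ C ∧ ∀ t : ℂ, ‖t‖ ≤ T → ∀ H : ℝ, 1 ≤ H →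
      ∃ F : MvPolynomial (Fin (n + 1)) ℤ, Irreducible F ∧ 0 < F.degreeOf 0 ∧ Small D (K * H) F ∧
      (∀ R, Small D H R → C⁻¹ * H ^ (-κ) ≤ ‖val t x R‖ ∨ (F ∣ R ∧ ‖val t x F‖ ^ D ≤ ‖val t x R‖)) ∧
      (∀ G, Irreducible G → 0 < G.degreeOf 0 → Small D (K * H) G → ‖val t x G‖ ^ D < C⁻¹ * H ^ (-κ) → F ∣ G) := by
  obtain ⟨κ₁, C₁, hκ₁, hC₁, h1⟩ := small_factor x hx D hD
  obtain ⟨κ₂, hκ₂, h2⟩ := two_irr x hx D hD
  refine ⟨max κ₁ (κ₂ * D), C₁, lt_max_of_lt_left hκ₁, hC₁, fun T hT => ?_⟩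
  obtain ⟨c₂, hc₂, h2⟩ := h2 T hT
  obtain ⟨c₃, hc₃⟩ : ∃ c₃ : ℝ, c₃ = (c₂ * C₁ ^ (-κ₂)) ^ D := ⟨_, rfl⟩
  have hc₃0 : 0 < c₃ := by rw [hc₃]; positivity
  obtain ⟨C, hC⟩ : ∃ C : ℝ, C = C₁ + 2 * c₃⁻¹ := ⟨_, rfl⟩
  have hC1 : C₁ ≤ C := by
    rw [hC]
    have : 0 < c₃⁻¹ := by positivity
    linarith
  have hC0 : 0 < C := by linarith
  have hCc : C⁻¹ < c₃ := by
    rw [inv_lt_comm₀ hC0 hc₃0]
    rw [hC]
    have : 0 < c₃⁻¹ := by positivity
    linarith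
  refine ⟨C, hC₁.trans hC1, ?_⟩
  intro t ht H hH
  have hH0 : 0 < H := by linarith
  have hk1 : H ^ (-(max κ₁ (κ₂ * D))) ≤ H ^ (-κ₁) :=
    Real.rpow_le_rpow_of_exponent_le hH (by have := le_max_left κ₁ (κ₂ * D); linarith)
  have hk2 : H ^ (-(max κ₁ (κ₂ * D))) ≤ H ^ (-(κ₂ * D)) :=
    Real.rpow_le_rpow_of_exponent_le hH (by have := le_max_right κ₁ (κ₂ * D); linarith)
  have hthr : C⁻¹ * H ^ (-(max κ₁ (κ₂ * D))) ≤ C₁⁻¹ * H ^ (-κ₁) :=
    mul_le_mul (inv_anti₀ (by linarith) hC1) hk1 (by positivity) (by positivity)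
  have hone : ∀ R : MvPolynomial (Fin (n + 1)) ℤ, Small D H R → ‖val t x R‖ < C⁻¹ * H ^ (-(max κ₁ (κ₂ * D))) →
      ∃ F, Irreducible F ∧ F ∣ R ∧ 0 < F.degreeOf 0 ∧ F.totalDegree ≤ D ∧ (∀ s, |((F.coeff s : ℤ) : ℝ)| ≤ C₁ * H) ∧
        ‖val t x F‖ ^ D ≤ ‖val t x R‖ := fun R hR hs =>
    h1 t H hH R hR.1 hR.2.1 hR.2.2 (hs.trans_le hthr)
  have hsm : ∀ F : MvPolynomial (Fin (n + 1)) ℤ, ‖val t x F‖ ^ D < C⁻¹ * H ^ (-(max κ₁ (κ₂ * D))) →
      ‖val t x F‖ < c₂ * (C₁ * H) ^ (-κ₂) := by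
    intro F hF
    have h3 : ‖val t x F‖ ^ D < (c₂ * (C₁ * H) ^ (-κ₂)) ^ D := by
      refine hF.trans_le ?_
      have e1 : (c₂ * (C₁ * H) ^ (-κ₂)) ^ D = c₃ * H ^ (-(κ₂ * D)) := by
        rw [hc₃, Real.mul_rpow (by linarith) hH0.le, ← mul_assoc, mul_pow, ← Real.rpow_natCast (H ^ (-κ₂)),
          ← Real.rpow_mul hH0.le, show -κ₂ * (D : ℝ) = -(κ₂ * D) by ring]
      rw [e1]
      exact mul_le_mul hCc.le hk2 (by positivity) hc₃0.le
    exact lt_of_pow_lt_pow_left₀ D (by positivity) h3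
  have hC₁H : 1 ≤ C₁ * H := one_le_mul_of_one_le_of_one_le hC₁ hH
  -- two small irreducible polynomials
  have htwo : ∀ F G : MvPolynomial (Fin (n + 1)) ℤ, Irreducible F → 0 < F.degreeOf 0 → Small D (C₁ * H) F →
      ‖val t x F‖ ^ D < C⁻¹ * H ^ (-(max κ₁ (κ₂ * D))) → Irreducible G → 0 < G.degreeOf 0 → Small D (C₁ * H) G →
      ‖val t x G‖ ^ D < C⁻¹ * H ^ (-(max κ₁ (κ₂ * D))) → F ∣ G := by
    intro F G hF hF0 hFs hFv hG hG0 hGs hGv
    by_contra hFG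
    have h3 := h2 t ht F G hF hG hFs.2.1 hGs.2.1 hF0 hG0 hFG (C₁ * H) hC₁H hFs.2.2 hGs.2.2
    have h6 := max_lt (hsm F hFv) (hsm G hGv)
    linarith
  by_cases hex : ∃ F : MvPolynomial (Fin (n + 1)) ℤ, Irreducible F ∧ 0 < F.degreeOf 0 ∧ Small D (C₁ * H) F ∧
      ‖val t x F‖ ^ D < C⁻¹ * H ^ (-(max κ₁ (κ₂ * D)))
  · obtain ⟨F, hF, hF0, hFs, hFv⟩ := hex
    refine ⟨F, hF, hF0, hFs, fun R hR => ?_, fun G hG hG0 hGs hGv => htwo F G hF hF0 hFs hFv hG hG0 hGs hGv⟩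
    by_contra hcon
    push Not at hcon
    obtain ⟨hs, hcon⟩ := hcon
    obtain ⟨G, hG, hGR, hG0, hGD, hGc, hGv⟩ := hone R hR hs
    have hFG := htwo F G hF hF0 hFs hFv hG hG0 ⟨hG.ne_zero, hGD, hGc⟩ (hGv.trans_lt hs)
    have h3 := hcon (hFG.trans hGR)
    obtain ⟨u, hu⟩ := hF.associated_of_dvd hG hFG
    have h5 : ‖val t x F‖ ≤ ‖val t x G‖ := by
      rw [← hu, val_mul, norm_mul]
      refine le_mul_of_one_le_right (norm_nonneg _) ?_
      refine norm_val_const t x _ u.ne_zero ?_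
      exact (MvPolynomial.isUnit_iff_totalDegree_of_isReduced.1 u.isUnit).2
    have h6 : ‖val t x F‖ ^ D ≤ ‖val t x G‖ ^ D := pow_le_pow_left₀ (norm_nonneg _) h5 D
    linarith
  · push Not at hex
    refine ⟨MvPolynomial.X 0, ?_, ?_, ⟨MvPolynomial.X_ne_zero _, ?_, ?_⟩, fun R hR => Or.inl ?_,
      fun G hG hG0 hGs hGv => absurd hGv (not_lt.2 (hex G hG hG0 hGs))⟩
    · exact (MvPolynomial.X_prime).irreducible
    · rw [MvPolynomial.degreeOf_X]; simp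
    · rw [MvPolynomial.totalDegree_X]; exact hD
    · intro s
      rw [MvPolynomial.coeff_X]
      split_ifs
      · simpa using hC₁H
      · simp only [Int.cast_zero, abs_zero]; linarith
    · by_contra hs
      push Not at hs
      obtain ⟨G, hG, hGR, hG0, hGD, hGc, hGv⟩ := hone R hR hs
      have := hex G hG hG0 ⟨hG.ne_zero, hGD, hGc⟩
      linarith

end Pool.Agent.Run7.h168.Near
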