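import Pool.Agent.N743.SS.Pair2
import Pool.Agent.N743.SS.Multi
import Pool.Agent.Run7.h168.Near.Kro

/-!
# Two irreducible polynomials with small values at a point `(t, x)`
-/

set_option autoImplicit false

namespace Pool.Agent.Run7.h168.Near

open Finset Pool.Agent.R356 Pool.Agent.N743.SS
open Pool.Agent.TH647.NR (norm_resultant_le)

variable {n : ℕ}

/-- the value at `(t, x)` -/
noncomputable def val (t : ℂ) (x : Fin n → ℝ) (R : MvPolynomial (Fin (n + 1)) ℤ) : ℂ :=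
  MvPolynomial.aeval (Fin.cons t (fun i => ((x i : ℝ) : ℂ)) : Fin (n + 1) → ℂ) R

/-- evaluation of polynomials in `x` -/
noncomputable def ev (x : Fin n → ℝ) : MvPolynomial (Fin n) ℤ →+* ℂ :=
  (MvPolynomial.aeval (fun i => ((x i : ℝ) : ℂ)) : MvPolynomial (Fin n) ℤ →ₐ[ℤ] ℂ).toRingHom

lemma ev_eq (x : Fin n → ℝ) (P : MvPolynomial (Fin n) ℤ) : ev x P = ((MvPolynomial.aeval x P : ℝ) : ℂ) := by
  have h3 : ev x = (algebraMap ℝ ℂ).comp (MvPolynomial.aeval x : MvPolynomial (Fin n) ℤ →ₐ[ℤ] ℝ).toRingHom := by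
    unfold ev
    refine MvPolynomial.ringHom_ext (fun r => ?_) (fun i => ?_)
    · simp
    · simp
  rw [h3]
  rfl

lemma norm_ev (x : Fin n → ℝ) (P : MvPolynomial (Fin n) ℤ) : ‖ev x P‖ = |MvPolynomial.aeval x P| := by
  rw [ev_eq, Complex.norm_real, Real.norm_eq_abs]

/-- a polynomial as a polynomial in the first variable -/
noncomputable def fse (R : MvPolynomial (Fin (n + 1)) ℤ) : Polynomial (MvPolynomial (Fin n) ℤ) :=
  MvPolynomial.finSuccEquiv ℤ n R

lemma val_eq (t : ℂ) (x : Fin n → ℝ) (R : MvPolynomial (Fin (n + 1)) ℤ) : val t x R = ((fse R).map (ev x)).eval t := by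
  have h : (MvPolynomial.aeval (Fin.cons t (fun i => ((x i : ℝ) : ℂ)) : Fin (n + 1) → ℂ) :
      MvPolynomial (Fin (n + 1)) ℤ →ₐ[ℤ] ℂ).toRingHom =
      (Polynomial.eval₂RingHom (ev x) t).comp (MvPolynomial.finSuccEquiv ℤ n).toRingHom := by
    refine MvPolynomial.ringHom_ext (fun r => ?_) (fun i => ?_)
    · simp
    · refine Fin.cases ?_ (fun j => ?_) i
      · show (MvPolynomial.aeval (Fin.cons t (fun i => ((x i : ℝ) : ℂ)) : Fin (n + 1) → ℂ)) (MvPolynomial.X 0 : MvPolynomial _ ℤ) =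
          Polynomial.eval₂ (ev x) t (MvPolynomial.finSuccEquiv ℤ n (MvPolynomial.X 0))
        rw [MvPolynomial.finSuccEquiv_X_zero, MvPolynomial.aeval_X, Polynomial.eval₂_X, Fin.cons_zero]
      · show (MvPolynomial.aeval (Fin.cons t (fun i => ((x i : ℝ) : ℂ)) : Fin (n + 1) → ℂ)) (MvPolynomial.X j.succ : MvPolynomial _ ℤ) =
          Polynomial.eval₂ (ev x) t (MvPolynomial.finSuccEquiv ℤ n (MvPolynomial.X j.succ))
        rw [MvPolynomial.finSuccEquiv_X_succ, MvPolynomial.aeval_X, Polynomial.eval₂_C, Fin.cons_succ]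
        simp [ev]
  have h1 := congrArg (fun f : MvPolynomial (Fin (n + 1)) ℤ →+* ℂ => f R) h
  rw [Polynomial.eval_map]
  exact h1

lemma fse_coeff_degree (R : MvPolynomial (Fin (n + 1)) ℤ) (D : ℕ) (hD : R.totalDegree ≤ D) (i : ℕ) :
    ((fse R).coeff i).totalDegree ≤ D := by
  by_cases h : (fse R).coeff i = 0
  · rw [h]; simp
  · have := MvPolynomial.totalDegree_coeff_finSuccEquiv_add_le R i h
    unfold fse
    omega

lemma fse_coeff_le (R : MvPolynomial (Fin (n + 1)) ℤ) (H : ℝ) (hH : ∀ s, |((R.coeff s : ℤ) : ℝ)| ≤ H) (i : ℕ)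
    (s : Fin n →₀ ℕ) : |((((fse R).coeff i).coeff s : ℤ) : ℝ)| ≤ H := by
  unfold fse
  rw [MvPolynomial.finSuccEquiv_coeff_coeff]
  exact hH _

lemma fse_natDegree (R : MvPolynomial (Fin (n + 1)) ℤ) : (fse R).natDegree = R.degreeOf 0 :=
  MvPolynomial.natDegree_finSuccEquiv R

lemma fse_natDegree_le (R : MvPolynomial (Fin (n + 1)) ℤ) (D : ℕ) (hD : R.totalDegree ≤ D) : (fse R).natDegree ≤ D := by
  rw [fse_natDegree]
  exact (MvPolynomial.degreeOf_le_totalDegree R 0).trans hD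

lemma fse_irreducible {R : MvPolynomial (Fin (n + 1)) ℤ} (h : Irreducible R) : Irreducible (fse R) :=
  (MulEquiv.irreducible_iff (MvPolynomial.finSuccEquiv ℤ n)).2 h

lemma fse_dvd {F G : MvPolynomial (Fin (n + 1)) ℤ} : fse F ∣ fse G ↔ F ∣ G :=
  map_dvd_iff (MvPolynomial.finSuccEquiv ℤ n)

/-- the resultant of two irreducible polynomials -/
lemma res_irr {A : Type} [CommRing A] [IsDomain A] [UniqueFactorizationMonoid A] (f g : Polynomial A)
    (hf : Irreducible f) (hg : Irreducible g) (hf0 : f.natDegree ≠ 0) (hg0 : g.natDegree ≠ 0) (h : ¬ f ∣ g) :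
    Polynomial.resultant f g ≠ 0 := by
  have hfp := hf.isPrimitive hf0
  have hgp := hg.isPrimitive hg0
  obtain ⟨K, hK⟩ : ∃ K, K = FractionRing A := ⟨_, rfl⟩
  intro h0
  have h1 := Polynomial.resultant_map_map f g f.natDegree g.natDegree (algebraMap A (FractionRing A))
  rw [h0, map_zero] at h1
  have hinj : Function.Injective (algebraMap A (FractionRing A)) := IsFractionRing.injective A _
  have e1 : f.natDegree = (f.map (algebraMap A (FractionRing A))).natDegree :=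
    (Polynomial.natDegree_map_eq_of_injective hinj f).symm
  have e2 : g.natDegree = (g.map (algebraMap A (FractionRing A))).natDegree :=
    (Polynomial.natDegree_map_eq_of_injective hinj g).symm
  rw [e1, e2] at h1
  have h2 := (Polynomial.resultant_eq_zero_iff.1 h1).2
  have hfi : Irreducible (f.map (algebraMap A (FractionRing A))) :=
    hfp.irreducible_iff_irreducible_map_fraction_map.1 hf
  rw [hfi.coprime_iff_not_dvd, not_not] at h2
  exact h ((hfp.dvd_iff_fraction_map_dvd_fraction_map (FractionRing A)).2 h2)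

lemma lenM_le {n : ℕ} (D : ℕ) (P : MvPolynomial (Fin n) ℤ) (hP : P.totalDegree ≤ D) (H : ℝ)
    (hH : ∀ s, |((P.coeff s : ℤ) : ℝ)| ≤ H) : lenM P ≤ (D + 1) ^ n * H := by
  have hH0 : 0 ≤ H := (abs_nonneg _).trans (hH 0)
  unfold lenM
  refine (Finset.sum_le_card_nsmul _ _ _ fun s _ => hH s).trans ?_
  rw [nsmul_eq_mul]
  refine mul_le_mul_of_nonneg_right ?_ hH0
  exact_mod_cast card_support_le (bdd_of_totalDegree hP)

lemma ev_le (x : Fin n → ℝ) (W : ℝ) (hW : 1 ≤ W) (hx : ∀ i, |x i| ≤ W) (D : ℕ) (P : MvPolynomial (Fin n) ℤ)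
    (hP : P.totalDegree ≤ D) : ‖ev x P‖ ≤ W ^ D * lenM P := by
  rw [norm_ev, MvPolynomial.aeval_def, MvPolynomial.eval₂_eq']
  refine (Finset.abs_sum_le_sum_abs _ _).trans ?_
  unfold lenM
  rw [mul_sum]
  refine sum_le_sum fun s hs => ?_
  rw [abs_mul, mul_comm]
  have h1 : |(algebraMap ℤ ℝ) (P.coeff s)| = |((P.coeff s : ℤ) : ℝ)| := by simp
  rw [h1]
  refine mul_le_mul_of_nonneg_right ?_ (abs_nonneg _)
  rw [Finset.abs_prod]
  have h2 : ∏ i, |x i ^ s i| ≤ ∏ i, W ^ s i := by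
    refine Finset.prod_le_prod (fun i _ => abs_nonneg _) fun i _ => ?_
    rw [abs_pow]
    exact pow_le_pow_left₀ (abs_nonneg _) (hx i) _
  refine h2.trans ?_
  rw [Finset.prod_pow_eq_pow_sum]
  refine pow_le_pow_right₀ hW ?_
  have h3 := MvPolynomial.le_totalDegree hs
  have h4 : s.sum (fun _ e => e) = ∑ i, s i := Finsupp.sum_fintype _ _ (fun _ => rfl)
  omega

/-- **Two irreducible polynomials are not both small.** -/
theorem two_irr (x : Fin n → ℝ) (hx : MeasM x) (D : ℕ) (hD : 1 ≤ D) : ∃ κ : ℝ, 0 < κ ∧ ∀ T : ℝ, 1 ≤ T →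
    ∃ c : ℝ, 0 < c ∧ ∀ t : ℂ, ‖t‖ ≤ T → ∀ F G : MvPolynomial (Fin (n + 1)) ℤ, Irreducible F → Irreducible G →
      F.totalDegree ≤ D → G.totalDegree ≤ D → 0 < F.degreeOf 0 → 0 < G.degreeOf 0 → ¬ F ∣ G →
      ∀ H : ℝ, 1 ≤ H → (∀ s, |((F.coeff s : ℤ) : ℝ)| ≤ H) → (∀ s, |((G.coeff s : ℤ) : ℝ)| ≤ H) →
      c * H ^ (-κ) ≤ max ‖val t x F‖ ‖val t x G‖ := by
  obtain ⟨r, c₀, hr, hc₀, hm⟩ := hx (2 * D * D)
  refine ⟨2 * D * r + 2 * D, by positivity, fun T hT => ?_⟩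
  obtain ⟨W, hW1, hWx⟩ : ∃ W : ℝ, 1 ≤ W ∧ ∀ i, |x i| ≤ W := by
    refine ⟨1 + ∑ i, |x i|, by linarith [Finset.sum_nonneg fun i (_ : i ∈ (Finset.univ : Finset (Fin n))) => abs_nonneg (x i)],
      fun i => ?_⟩
    have := Finset.single_le_sum (f := fun i => |x i|) (fun i _ => abs_nonneg _) (Finset.mem_univ i)
    linarith
  obtain ⟨L, hL⟩ : ∃ L : ℝ, L = W ^ D * (D + 1) ^ n := ⟨_, rfl⟩
  have hD1 : (1 : ℝ) ≤ (D + 1 : ℝ) ^ n := one_le_pow₀ (by linarith [Nat.cast_nonneg (α := ℝ) D])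
  have hWD : 1 ≤ W ^ D := one_le_pow₀ hW1
  have hL1 : 1 ≤ L := by rw [hL]; exact one_le_mul_of_one_le_of_one_le hWD hD1
  have hL2 : (D + 1 : ℝ) ^ n ≤ L := by rw [hL]; exact le_mul_of_one_le_left (by positivity) hWD
  obtain ⟨K₁, hK₁⟩ : ∃ K₁ : ℝ, K₁ = (2 * D) * T ^ (2 * D) * ((2 * D).factorial * L ^ (2 * D)) := ⟨_, rfl⟩
  have hD0 : (0 : ℝ) < D := by exact_mod_cast hD
  have hK₁0 : 0 < K₁ := by rw [hK₁]; positivity
  obtain ⟨K₂, hK₂⟩ : ∃ K₂ : ℝ, K₂ = (2 * D).factorial * L ^ (2 * D) := ⟨_, rfl⟩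
  have hK₂0 : 0 < K₂ := by rw [hK₂]; positivity
  refine ⟨c₀ * K₂ ^ (-r) / K₁, by positivity, ?_⟩
  intro t ht F G hF hG hFD hGD hF0 hG0 hFG H hH hFH hGH
  have hH0 : 0 < H := by linarith
  obtain ⟨ε, hε⟩ : ∃ ε : ℝ, ε = max ‖val t x F‖ ‖val t x G‖ := ⟨_, rfl⟩
  rw [← hε]
  have hε0 : 0 ≤ ε := by rw [hε]; exact (norm_nonneg _).trans (le_max_left _ _)
  obtain ⟨a, ha⟩ : ∃ a, a = (fse F).natDegree := ⟨_, rfl⟩
  obtain ⟨b, hb⟩ : ∃ b, b = (fse G).natDegree := ⟨_, rfl⟩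
  have ha0 : 0 < a := by rw [ha, fse_natDegree]; exact hF0
  have hb0 : 0 < b := by rw [hb, fse_natDegree]; exact hG0
  have haD : a ≤ D := by rw [ha]; exact fse_natDegree_le F D hFD
  have hbD : b ≤ D := by rw [hb]; exact fse_natDegree_le G D hGD
  have hab : a + b ≤ 2 * D := by omega
  obtain ⟨ρ, hρ⟩ : ∃ ρ, ρ = Polynomial.resultant (fse F) (fse G) a b := ⟨_, rfl⟩
  have hρ0 : ρ ≠ 0 := by
    rw [hρ, ha, hb]
    exact res_irr (fse F) (fse G) (fse_irreducible hF) (fse_irreducible hG) (by omega) (by omega)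
      (fun h => hFG (fse_dvd.1 h))
  -- coefficients
  have hcF : ∀ i, lenM ((fse F).coeff i) ≤ L * H := fun i =>
    (lenM_le D _ (fse_coeff_degree F D hFD i) H (fse_coeff_le F H hFH i)).trans
      (mul_le_mul_of_nonneg_right hL2 hH0.le)
  have hcG : ∀ i, lenM ((fse G).coeff i) ≤ L * H := fun i =>
    (lenM_le D _ (fse_coeff_degree G D hGD i) H (fse_coeff_le G H hGH i)).trans
      (mul_le_mul_of_nonneg_right hL2 hH0.le)
  have hvF : ∀ i, ‖((fse F).map (ev x)).coeff i‖ ≤ L * H := by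
    intro i
    rw [Polynomial.coeff_map]
    refine (ev_le x W hW1 hWx D _ (fse_coeff_degree F D hFD i)).trans ?_
    rw [hL, mul_assoc]
    exact mul_le_mul_of_nonneg_left (lenM_le D _ (fse_coeff_degree F D hFD i) H (fse_coeff_le F H hFH i)) (by positivity)
  have hvG : ∀ i, ‖((fse G).map (ev x)).coeff i‖ ≤ L * H := by
    intro i
    rw [Polynomial.coeff_map]
    refine (ev_le x W hW1 hWx D _ (fse_coeff_degree G D hGD i)).trans ?_
    rw [hL, mul_assoc]
    exact mul_le_mul_of_nonneg_left (lenM_le D _ (fse_coeff_degree G D hGD i) H (fse_coeff_le G H hGH i)) (by positivity)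
  have hLH : 1 ≤ L * H := one_le_mul_of_one_le_of_one_le hL1 hH
  -- upper bound
  have hup : ‖ev x ρ‖ ≤ K₁ * H ^ (2 * D) * ε := by
    have h3 := norm_resultant_le ((fse F).map (ev x)) ((fse G).map (ev x)) a b
      (Polynomial.natDegree_map_le.trans ha.ge) (Polynomial.natDegree_map_le.trans hb.ge) (by omega) (L * H) T ε hLH
      hvF hvG t hT ht (by rw [← val_eq, hε]; exact le_max_left _ _) (by rw [← val_eq, hε]; exact le_max_right _ _)
    rw [Polynomial.resultant_map_map, ← hρ] at h3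
    refine h3.trans ?_
    have h4 : T ^ (a + b) ≤ T ^ (2 * D) := pow_le_pow_right₀ hT hab
    have h5 : (((a + b).factorial : ℕ) : ℝ) ≤ (2 * D).factorial := by exact_mod_cast Nat.factorial_le hab
    have h6 : (L * H) ^ (a + b) ≤ (L * H) ^ (2 * D) := pow_le_pow_right₀ hLH hab
    have h7 : ((a : ℝ) + b) ≤ 2 * D := by exact_mod_cast hab
    calc ((a : ℝ) + b) * (T ^ (a + b) * ε) * ((a + b).factorial * (L * H) ^ (a + b))
        ≤ (2 * D) * (T ^ (2 * D) * ε) * ((2 * D).factorial * (L * H) ^ (2 * D)) := by gcongr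
      _ = _ := by rw [hK₁, mul_pow]; ring
  -- lower bound
  have hdeg : ρ.totalDegree ≤ 2 * D * D := by
    have h1 : ρ.totalDegree ≤ (a + b) * D := by
      rw [hρ, Polynomial.resultant]
      refine totalDegree_det_le (a + b) D _ fun i j => ?_
      exact sylv_entry (fun z : MvPolynomial (Fin n) ℤ => z.totalDegree ≤ D) (by simp) _ _ _ _
        (fun i => fse_coeff_degree F D hFD i) (fun i => fse_coeff_degree G D hGD i) i j
    exact h1.trans (Nat.mul_le_mul_right _ hab)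
  have hlen : lenM ρ ≤ K₂ * H ^ (2 * D) := by
    have h1 : lenM ρ ≤ (a + b).factorial * (L * H) ^ (a + b) := by
      rw [hρ, Polynomial.resultant]
      refine isLenM.det (a + b) _ (L * H) fun i j => ?_
      exact sylv_entry (fun z : MvPolynomial (Fin n) ℤ => lenM z ≤ L * H) (by
        show lenM (0 : MvPolynomial (Fin n) ℤ) ≤ L * H
        rw [isLenM.zero]; positivity) _ _ _ _ hcF hcG i j
    refine h1.trans ?_
    have h5 : (((a + b).factorial : ℕ) : ℝ) ≤ (2 * D).factorial := by exact_mod_cast Nat.factorial_le hab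
    have h6 : (L * H) ^ (a + b) ≤ (L * H) ^ (2 * D) := pow_le_pow_right₀ hLH hab
    calc ((a + b).factorial : ℝ) * (L * H) ^ (a + b) ≤ (2 * D).factorial * (L * H) ^ (2 * D) := by gcongr
      _ = _ := by rw [hK₂, mul_pow]; ring
  have hlow := hm ρ hρ0 hdeg (K₂ * H ^ (2 * D)) fun s => (le_lenM _ s).trans hlen
  rw [norm_ev] at hup
  have hfin := hlow.trans hup
  have e1 : (K₂ * H ^ (2 * D)) ^ (-r) = K₂ ^ (-r) * H ^ (-(2 * D * r : ℝ)) := by
    rw [Real.mul_rpow hK₂0.le (by positivity), ← Real.rpow_natCast H, ← Real.rpow_mul hH0.le]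
    congr 2
    push_cast
    ring
  rw [e1] at hfin
  have e2 : H ^ (-(2 * D * r + 2 * D : ℝ)) * H ^ (2 * D) = H ^ (-(2 * D * r : ℝ)) := by
    rw [← Real.rpow_natCast H, ← Real.rpow_add hH0]
    congr 1
    push_cast
    ring
  have h2D : 0 < H ^ (2 * D) := by positivity
  have h8 : (c₀ * K₂ ^ (-r) * H ^ (-(2 * D * r + 2 * D : ℝ))) * H ^ (2 * D) ≤ (K₁ * ε) * H ^ (2 * D) := by
    calc _ = c₀ * (K₂ ^ (-r) * (H ^ (-(2 * D * r + 2 * D : ℝ)) * H ^ (2 * D))) := by ring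
      _ = c₀ * (K₂ ^ (-r) * H ^ (-(2 * D * r : ℝ))) := by rw [e2]
      _ ≤ K₁ * H ^ (2 * D) * ε := hfin
      _ = _ := by ring
  have h9 := le_of_mul_le_mul_right h8 h2D
  rw [div_mul_eq_mul_div, div_le_iff₀ hK₁0]
  linarith

end Pool.Agent.Run7.h168.Near
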